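import Mathlib
import Pool.Agent.Lib.MP_c09033_al.Defs
import Pool.Agent.Lib.MP_c09033_al.Heisenberg

set_option autoImplicit false

namespace Pool.Agent.Results.MP_c09033_al.CompositionFails

open Pool.Agent.Lib.MP_c09033_al

universe v

/-- **Composing an open homomorphism with a semitopological isomorphism need not give a
semitopological homomorphism.** -/
theorem result :
    ∃ (G K H : Type) (_ : Group G) (_ : Group K) (_ : Group H)
      (_ : TopologicalSpace G) (_ : TopologicalSpace K) (_ : TopologicalSpace H)
      (_ : IsTopologicalGroup G) (_ : IsTopologicalGroup K) (_ : IsTopologicalGroup H)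
      (f₁ : G →* K) (f₂ : K →* H),
      -- separation and size: all three groups are Hausdorff, the first two are discrete
      DiscreteTopology G ∧ DiscreteTopology K ∧ T2Space H ∧ Countable G ∧
      -- `G` is nilpotent of class at most two
      (∀ x y z : G, (x * y * x⁻¹ * y⁻¹) * z = z * (x * y * x⁻¹ * y⁻¹)) ∧
      -- `f₁` is an open continuous surjective homomorphism
      Continuous f₁ ∧ IsOpenMap f₁ ∧ Function.Surjective f₁ ∧
      -- `f₂` is a semitopological isomorphism
      Function.Bijective f₂ ∧ IsSemitopological.{0, 0, 0} f₂ ∧
      -- the composition is a continuous surjective homomorphism that is not semitopological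
      Continuous (f₂.comp f₁) ∧ Function.Surjective (f₂.comp f₁) ∧
      ¬ IsSemitopological.{0, v, 0} (f₂.comp f₁) :=
  main

end Pool.Agent.Results.MP_c09033_al.CompositionFails
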